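import Mathlib

set_option autoImplicit false
set_option linter.unusedVariables false

open Set

namespace Pool.Agent.DZ96

theorem countable_finsets {L : Type*} {A : Set L} (hA : A.Countable) :
    {H : Finset L | (H : Set L) ⊆ A}.Countable := by
  have h := Set.countable_setOf_finite_subset hA
  have h2 : ((fun H : Finset L => (H : Set L)) ⁻¹' {t | t.Finite ∧ t ⊆ A}).Countable :=
    h.preimage_of_injOn (Finset.coe_injective.injOn)
  refine h2.mono ?_
  intro H hH
  exact ⟨H.finite_toSet, hH⟩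

/-- Closure of the empty set under a countable-valued operation on finite sets. -/
theorem exists_closed {L : Type*} (f : Finset L → Set L) (hf : ∀ H, (f H).Countable) :
    ∃ N : Set L, N.Countable ∧ ∀ H : Finset L, (H : Set L) ⊆ N → f H ⊆ N := by
  classical
  let step : Set L → Set L := fun A => A ∪ ⋃ H ∈ {H : Finset L | (H : Set L) ⊆ A}, f H
  have hstep : ∀ A : Set L, A.Countable → (step A).Countable := by
    intro A hA
    exact hA.union (Set.Countable.biUnion (countable_finsets hA) fun H _ => hf H)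
  let N : ℕ → Set L := fun n => Nat.rec ∅ (fun _ A => step A) n
  have hN : ∀ n, (N n).Countable := by
    intro n
    induction n with
    | zero => exact Set.countable_empty
    | succ n ih => exact hstep _ ih
  have hmono1 : ∀ n, N n ⊆ N (n + 1) := fun n => Set.subset_union_left
  have hmono : Monotone N := monotone_nat_of_le_succ hmono1
  refine ⟨⋃ n, N n, Set.countable_iUnion hN, ?_⟩
  intro H hH
  have hex : ∃ n, (H : Set L) ⊆ N n := by
    induction H using Finset.induction_on with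
    | empty => exact ⟨0, by simp⟩
    | insert a s ha ih =>
      have h1 : (s : Set L) ⊆ ⋃ n, N n := by
        intro x hx
        exact hH (by simp only [Finset.coe_insert]; exact Set.mem_insert_of_mem _ hx)
      obtain ⟨n1, hn1⟩ := ih h1
      have h2 : a ∈ ⋃ n, N n := hH (by simp)
      obtain ⟨n2, hn2⟩ := Set.mem_iUnion.mp h2
      refine ⟨max n1 n2, ?_⟩
      intro x hx
      simp only [Finset.coe_insert] at hx
      rcases hx with rfl | hx
      · exact hmono (le_max_right _ _) hn2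
      · exact hmono (le_max_left _ _) (hn1 hx)
  obtain ⟨n, hn⟩ := hex
  intro x hx
  refine Set.mem_iUnion.mpr ⟨n + 1, ?_⟩
  refine Or.inr ?_
  simp only [Set.mem_iUnion, Set.mem_setOf_eq]
  exact ⟨H, hn, hx⟩

/-- The points `p b` (`b` in `L`) and the predicate `Good` of the recursion. -/
structure Sys {L : Type*} [LinearOrder L] (p : L → Set L) (Good : Set L → Prop) : Prop where
  good_iff : ∀ Z, Good Z ↔ Z.Countable ∧ ∀ η, (∃ b ∈ Z, η ≤ b) → ∀ Y, Good Y → Y ⊆ Iio η →
    ∃ H : Finset L, {b | b ∈ Z ∧ b < η ∧ p b ∩ H = Y ∩ H}.Finite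
  pgood : ∀ b, Good (p b)
  plt : ∀ b, p b ⊆ Iio b

variable {L : Type*} [LinearOrder L] {p : L → Set L} {Good : Set L → Prop}

theorem Sys.countable (S : Sys p Good) {Z : Set L} (hZ : Good Z) : Z.Countable :=
  ((S.good_iff Z).mp hZ).1

theorem Sys.mono (S : Sys p Good) {Y Z : Set L} (hZ : Good Z) (h : Y ⊆ Z) : Good Y := by
  have h1 := (S.good_iff Z).mp hZ
  refine (S.good_iff Y).mpr ⟨h1.1.mono h, ?_⟩
  rintro η ⟨b, hb, hη⟩ W hW hWη
  obtain ⟨H, hH⟩ := h1.2 η ⟨b, h hb, hη⟩ W hW hWη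
  refine ⟨H, hH.subset ?_⟩
  rintro c ⟨hc1, hc2, hc3⟩
  exact ⟨h hc1, hc2, hc3⟩

theorem Sys.empty (S : Sys p Good) : Good ∅ := by
  refine (S.good_iff ∅).mpr ⟨Set.countable_empty, ?_⟩
  rintro η ⟨b, hb, -⟩
  exact absurd hb (Set.notMem_empty b)

/-- Ranges of different members are disjoint. -/
def PD {m : ℕ} (D : Set (Fin m → L)) : Prop :=
  ∀ F ∈ D, ∀ G ∈ D, F ≠ G → ∀ i j, F i ≠ G j

theorem PD.subset {m : ℕ} {D E : Set (Fin m → L)} (h : PD D) (hE : E ⊆ D) : PD E :=
  fun F hF G hG => h F (hE hF) G (hE hG)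

theorem PD.meet_subsingleton {m : ℕ} {D : Set (Fin m → L)} (h : PD D) (a : L) :
    {F | F ∈ D ∧ ∃ j, F j = a}.Subsingleton := by
  rintro F ⟨hF, i, hi⟩ G ⟨hG, j, hj⟩
  by_contra hne
  exact h F hF G hG hne i j (hi.trans hj.symm)

theorem PD.meet_countable {m : ℕ} {D : Set (Fin m → L)} (h : PD D) {N : Set L}
    (hN : N.Countable) : {F | F ∈ D ∧ ∃ j, F j ∈ N}.Countable := by
  have h1 : (⋃ a ∈ N, {F | F ∈ D ∧ ∃ j, F j = a}).Countable :=
    hN.biUnion fun a _ => (h.meet_subsingleton a).countable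
  refine h1.mono ?_
  rintro F ⟨hF, j, hj⟩
  simp only [Set.mem_iUnion, Set.mem_setOf_eq]
  exact ⟨F j, hj, hF, j, rfl⟩

theorem PD.meet_finite {m : ℕ} {D : Set (Fin m → L)} (h : PD D) {N : Set L}
    (hN : N.Finite) : {F | F ∈ D ∧ ∃ j, F j ∈ N}.Finite := by
  have h1 : (⋃ a ∈ N, {F | F ∈ D ∧ ∃ j, F j = a}).Finite :=
    hN.biUnion fun a _ => (h.meet_subsingleton a).finite
  refine h1.subset ?_
  rintro F ⟨hF, j, hj⟩
  simp only [Set.mem_iUnion, Set.mem_setOf_eq]
  exact ⟨F j, hj, hF, j, rfl⟩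

/-- Lemma A: traces of a member outside a countable closed set are accumulation points. -/
theorem lemA (S : Sys p Good) {m : ℕ} (hm : 0 < m) (D : Set (Fin m → L)) (hdis : PD D)
    (hunc : ¬ D.Countable) :
    ∃ (E : Set (Fin m → L)) (y : Fin m → Set L), E ⊆ D ∧ E.Countable ∧ (∀ j, Good (y j)) ∧
      (∃ F ∈ D, ∀ j, y j ⊆ p (F j)) ∧
      ∀ H : Finset L, {F | F ∈ E ∧ ∀ j, p (F j) ∩ H = y j ∩ H}.Infinite := by
  classical
  let DD : Finset L → (Fin m → Finset L) → Set (Fin m → L) := fun H s =>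
    {F | F ∈ D ∧ ∀ j, p (F j) ∩ H = (s j : Set L)}
  have hG : ∀ H s, ∃ G : Set (Fin m → L), G ⊆ DD H s ∧ G.Countable ∧
      ((DD H s).Infinite → G.Infinite) ∧ (¬ (DD H s).Infinite → G = DD H s) := by
    intro H s
    by_cases h : (DD H s).Infinite
    · refine ⟨Set.range fun n => ((h.natEmbedding _ n : DD H s) : Fin m → L), ?_, ?_, ?_, ?_⟩
      · rintro _ ⟨n, rfl⟩
        exact (h.natEmbedding _ n).2
      · exact Set.countable_range _
      · intro _
        apply Set.infinite_range_of_injective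
        intro a b hab
        exact (h.natEmbedding _).injective (Subtype.ext hab)
      · intro h'
        exact absurd h h'
    · refine ⟨DD H s, subset_rfl, (Set.not_infinite.mp h).countable, fun h' => h', fun _ => rfl⟩
  choose G hGsub hGc hGinf hGfin using hG
  let f : Finset L → Set L := fun H => (⋃ b ∈ H, p b) ∪
    ⋃ s ∈ Fintype.piFinset (fun _ : Fin m => H.powerset), ⋃ F ∈ G H s, Set.range F
  have hf : ∀ H, (f H).Countable := by
    intro H
    refine Set.Countable.union ?_ ?_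
    · exact Set.Countable.biUnion H.countable_toSet fun b _ => S.countable (S.pgood b)
    · refine Set.Countable.biUnion (Finset.countable_toSet _) fun s _ => ?_
      exact (hGc H s).biUnion fun F _ => Set.countable_range F
  obtain ⟨N, hNc, hN⟩ := exists_closed f hf
  have hpN : ∀ b ∈ N, p b ⊆ N := by
    intro b hb
    have h1 := hN {b} (by simpa using hb)
    refine Set.Subset.trans ?_ h1
    intro x hx
    left
    simp only [Finset.mem_singleton, Set.mem_iUnion]
    exact ⟨b, rfl, hx⟩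
  have hcount := hdis.meet_countable hNc
  obtain ⟨Fs, hFs, hFsN⟩ : ∃ F ∈ D, ∀ j, F j ∉ N := by
    by_contra hcon
    push Not at hcon
    apply hunc
    refine hcount.mono ?_
    intro F hF
    exact ⟨hF, hcon F hF⟩
  refine ⟨{F | F ∈ D ∧ ∃ j, F j ∈ N}, fun j => p (Fs j) ∩ N, fun F hF => hF.1, hcount, ?_,
    ⟨Fs, hFs, fun j => Set.inter_subset_left⟩, ?_⟩
  · intro j
    exact S.mono (S.pgood (Fs j)) Set.inter_subset_left
  · intro H
    let H0 : Finset L := H.filter (fun a => a ∈ N)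
    let s : Fin m → Finset L := fun j => H0.filter (fun a => a ∈ p (Fs j))
    have hH0 : (H0 : Set L) ⊆ N := by
      intro a ha
      exact (Finset.mem_filter.mp ha).2
    have hfN := hN H0 hH0
    have hs : s ∈ Fintype.piFinset (fun _ : Fin m => H0.powerset) := by
      rw [Fintype.mem_piFinset]
      intro j
      exact Finset.mem_powerset.mpr (Finset.filter_subset _ _)
    have hrange : ∀ F ∈ G H0 s, Set.range F ⊆ N := by
      intro F hF
      refine Set.Subset.trans ?_ hfN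
      intro x hx
      right
      simp only [Set.mem_iUnion]
      exact ⟨s, hs, F, hF, hx⟩
    have hFsDD : Fs ∈ DD H0 s := by
      refine ⟨hFs, fun j => ?_⟩
      ext a
      simp only [s, Finset.coe_filter, Set.mem_inter_iff, Finset.mem_coe, Set.mem_setOf_eq]
      exact and_comm
    have hinf : (DD H0 s).Infinite := by
      by_contra hni
      have h1 : Fs ∈ G H0 s := by rw [hGfin H0 s hni]; exact hFsDD
      exact hFsN ⟨0, hm⟩ (hrange Fs h1 ⟨⟨0, hm⟩, rfl⟩)
    refine (hGinf H0 s hinf).mono ?_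
    intro F hF
    have hFD := hGsub H0 s hF
    have hFN : ∀ j, F j ∈ N := fun j => hrange F hF ⟨j, rfl⟩
    refine ⟨⟨hFD.1, ⟨0, hm⟩, hFN _⟩, fun j => ?_⟩
    have hj := hFD.2 j
    ext a
    constructor
    · rintro ⟨ha1, ha2⟩
      have haN : a ∈ N := hpN _ (hFN j) ha1
      have haH0 : a ∈ (H0 : Set L) := Finset.mem_coe.mpr (Finset.mem_filter.mpr ⟨ha2, haN⟩)
      have h1 : a ∈ (s j : Set L) := by rw [← hj]; exact ⟨ha1, haH0⟩
      have h2 := (Finset.mem_filter.mp (Finset.mem_coe.mp h1)).2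
      exact ⟨⟨h2, haN⟩, ha2⟩
    · rintro ⟨⟨ha1, haN⟩, ha2⟩
      have haH0 : a ∈ H0 := Finset.mem_filter.mpr ⟨ha2, haN⟩
      have h1 : a ∈ (s j : Set L) := Finset.mem_coe.mpr (Finset.mem_filter.mpr ⟨haH0, ha1⟩)
      rw [← hj] at h1
      exact ⟨h1.1, ha2⟩

/-- Step (3): a good set reaching beyond `ξ` misses a member of a family with an accumulation
point below `ξ`. -/
theorem step3 (S : Sys p Good) {m : ℕ} (E : Set (Fin m → L)) (hdis : PD E)
    (y : Fin m → Set L)
    (hacc : ∀ H : Finset L, {F | F ∈ E ∧ ∀ j, p (F j) ∩ H = y j ∩ H}.Infinite)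
    (ξ : L) (hE : ∀ F ∈ E, ∀ j, F j < ξ) (hy : ∀ j, Good (y j)) (hyξ : ∀ j, y j ⊆ Iio ξ)
    (Z : Set L) (hZ : Good Z) (hξ : ∃ b ∈ Z, ξ ≤ b) : ∃ F ∈ E, ∀ j, F j ∉ Z := by
  classical
  by_contra hcon
  push Not at hcon
  have h1 := ((S.good_iff Z).mp hZ).2 ξ hξ
  have h2 : ∀ j, ∃ H : Finset L, {b | b ∈ Z ∧ b < ξ ∧ p b ∩ H = y j ∩ H}.Finite :=
    fun j => h1 (y j) (hy j) (hyξ j)
  choose H hH using h2
  let HH : Finset L := Finset.univ.biUnion H
  have hfin : (⋃ j, {b | b ∈ Z ∧ b < ξ ∧ p b ∩ H j = y j ∩ H j}).Finite :=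
    Set.finite_iUnion hH
  apply hacc HH
  refine (hdis.meet_finite hfin).subset ?_
  rintro F ⟨hF, hFj⟩
  obtain ⟨j, hj⟩ := hcon F hF
  refine ⟨hF, j, ?_⟩
  refine Set.mem_iUnion.mpr ⟨j, hj, hE F hF j, ?_⟩
  have hsub : (H j : Set L) ⊆ (HH : Set L) := by
    intro a ha
    exact Finset.mem_coe.mpr (Finset.mem_biUnion.mpr ⟨j, Finset.mem_univ j, ha⟩)
  have hj' := hFj j
  ext a
  constructor
  · rintro ⟨ha1, ha2⟩
    have : a ∈ p (F j) ∩ HH := ⟨ha1, hsub ha2⟩
    rw [hj'] at this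
    exact ⟨this.1, ha2⟩
  · rintro ⟨ha1, ha2⟩
    have : a ∈ y j ∩ HH := ⟨ha1, hsub ha2⟩
    rw [← hj'] at this
    exact ⟨this.1, ha2⟩

end Pool.Agent.DZ96
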