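import Pool.Agent.DZ96.Core

set_option autoImplicit false
set_option linter.unusedVariables false

open Set

namespace Pool.Agent.DZ96

variable {L : Type*} [LinearOrder L] {p : L → Set L} {Good : Set L → Prop}

/-- `Z` lies in the basic set of some member of `U`. -/
def Cov (U : Set (Finset L × Finset L)) (Z : Set L) : Prop :=
  ∃ q ∈ U, (∀ a ∈ q.1, a ∉ Z) ∧ ∀ a ∈ q.2, a ∈ Z

theorem Cov.mono {U V : Set (Finset L × Finset L)} (h : U ⊆ V) {Z : Set L} (hZ : Cov U Z) :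
    Cov V Z := by
  obtain ⟨q, hq, h1⟩ := hZ
  exact ⟨q, h hq, h1⟩

/-- The good subsets of `I` form a Lindelöf space. -/
def LindI (Good : Set L → Prop) (I : Set L) : Prop :=
  ∀ U : Set (Finset L × Finset L), (∀ Z, Good Z → Z ⊆ I → Cov U Z) →
    ∃ V ⊆ U, V.Countable ∧ ∀ Z, Good Z → Z ⊆ I → Cov V Z

/-- A maximal subfamily with pairwise disjoint ranges. -/
theorem exists_maximal_PD {m : ℕ} (hm : 0 < m) (U : Set (Fin m → L)) :
    ∃ D ⊆ U, PD D ∧ ∀ F ∈ U, ∃ G ∈ D, ∃ i j, F i = G j := by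
  have hz : ∃ D, Maximal (fun D : Set (Fin m → L) => D ⊆ U ∧ PD D) D := by
    apply zorn_subset
    intro c hc hchain
    refine ⟨⋃₀ c, ⟨?_, ?_⟩, fun s hs => Set.subset_sUnion_of_mem hs⟩
    · exact Set.sUnion_subset fun s hs => (hc hs).1
    · rintro F ⟨s, hs, hF⟩ G ⟨t, ht, hG⟩ hne
      rcases hchain.total hs ht with hst | hts
      · exact (hc ht).2 F (hst hF) G hG hne
      · exact (hc hs).2 F hF G (hts hG) hne
  obtain ⟨D, hD⟩ := hz
  refine ⟨D, hD.prop.1, hD.prop.2, ?_⟩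
  intro F hF
  by_contra hcon
  push Not at hcon
  have h1 : insert F D ⊆ U ∧ PD (insert F D) := by
    refine ⟨Set.insert_subset hF hD.prop.1, ?_⟩
    rintro A (rfl | hA) B (rfl | hB) hne
    · exact absurd rfl hne
    · exact hcon B hB
    · intro i j h
      exact hcon A hA j i h.symm
    · exact hD.prop.2 A hA B hB hne
  have h2 : F ∈ D := hD.le_of_ge h1 (Set.subset_insert F D) (Set.mem_insert F D)
  exact hcon F h2 ⟨0, hm⟩ ⟨0, hm⟩ rfl

/-- An uncountable family gives a countable subfamily bounded in `I` with an accumulation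
point bounded by the same element. -/
theorem exists_acc (S : Sys p Good) {I : Set L} (hI : ∀ a ∈ I, Iio a ⊆ I) {m : ℕ} (hm : 0 < m)
    (D : Set (Fin m → L)) (hDI : ∀ F ∈ D, ∀ j, F j ∈ I) (hdis : PD D) (hunc : ¬ D.Countable) :
    ∃ (E : Set (Fin m → L)) (y : Fin m → Set L) (ξ : L), ξ ∈ I ∧ E ⊆ D ∧ E.Countable ∧
      (∀ F ∈ E, ∀ j, F j < ξ) ∧ (∀ j, Good (y j)) ∧ (∀ j, y j ⊆ Iio ξ) ∧
      ∀ H : Finset L, {F | F ∈ E ∧ ∀ j, p (F j) ∩ H = y j ∩ H}.Infinite := by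
  by_cases hb : ∀ C : Set L, C.Countable → C ⊆ I → ∃ ξ ∈ I, C ⊆ Iio ξ
  · obtain ⟨E, y, hED, hEc, hy, ⟨Fs, hFs, hys⟩, hacc⟩ := lemA S hm D hdis hunc
    let C : Set L := (⋃ F ∈ E, Set.range F) ∪ ⋃ j, y j
    have hCc : C.Countable := by
      refine Set.Countable.union (hEc.biUnion fun F _ => Set.countable_range F) ?_
      exact Set.countable_iUnion fun j => S.countable (hy j)
    have hCI : C ⊆ I := by
      rintro x (hx | hx)
      · simp only [Set.mem_iUnion] at hx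
        obtain ⟨F, hF, j, rfl⟩ := hx
        exact hDI F (hED hF) j
      · obtain ⟨j, hj⟩ := Set.mem_iUnion.mp hx
        exact hI _ (hDI Fs hFs j) (S.plt _ (hys j hj))
    obtain ⟨ξ, hξ, hCξ⟩ := hb C hCc hCI
    refine ⟨E, y, ξ, hξ, hED, hEc, ?_, hy, ?_, hacc⟩
    · intro F hF j
      refine hCξ (Or.inl ?_)
      simp only [Set.mem_iUnion]
      exact ⟨F, hF, j, rfl⟩
    · intro j x hx
      exact hCξ (Or.inr (Set.mem_iUnion.mpr ⟨j, hx⟩))
  · push Not at hb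
    obtain ⟨C, hCc, hCI, hC⟩ := hb
    have hC' : ∀ ξ ∈ I, ∃ c ∈ C, ξ ≤ c := by
      intro ξ hξ
      obtain ⟨c, hc, hcξ⟩ := Set.not_subset.mp (hC ξ hξ)
      exact ⟨c, hc, not_lt.mp hcξ⟩
    have hex : ∃ c ∈ C, ¬ {F | F ∈ D ∧ ∀ j, F j < c}.Countable := by
      by_contra hcon
      push Not at hcon
      apply hunc
      have h1 : (⋃ c ∈ C, ({F | F ∈ D ∧ ∀ j, F j < c} ∪ {F | F ∈ D ∧ ∃ j, F j = c})).Countable :=
        hCc.biUnion fun c hc => (hcon c hc).union (hdis.meet_subsingleton c).countable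
      refine h1.mono ?_
      intro F hF
      haveI : Nonempty (Fin m) := ⟨⟨0, hm⟩⟩
      obtain ⟨i, hi⟩ := Finite.exists_max F
      obtain ⟨c, hc, hic⟩ := hC' (F i) (hDI F hF i)
      simp only [Set.mem_iUnion]
      refine ⟨c, hc, ?_⟩
      rcases hic.lt_or_eq with h | h
      · exact Or.inl ⟨hF, fun j => (hi j).trans_lt h⟩
      · exact Or.inr ⟨hF, i, h⟩
    obtain ⟨c, hc, hcunc⟩ := hex
    have hsub : {F | F ∈ D ∧ ∀ j, F j < c} ⊆ D := fun F hF => hF.1
    obtain ⟨E, y, hED, hEc, hy, ⟨Fs, hFs, hys⟩, hacc⟩ :=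
      lemA S hm {F | F ∈ D ∧ ∀ j, F j < c} (hdis.subset hsub) hcunc
    refine ⟨E, y, c, hCI hc, hED.trans hsub, hEc, fun F hF j => (hED hF).2 j, hy, ?_, hacc⟩
    intro j x hx
    exact (S.plt _ (hys j hx)).trans (hFs.2 j)

/-- The Lindelöf step, for covers whose negative parts lie in `I`. -/
theorem lind_step' (S : Sys p Good) {I : Set L} (hI : ∀ a ∈ I, Iio a ⊆ I)
    (ih : ∀ ξ ∈ I, LindI Good (Iio ξ)) (U : Set (Finset L × Finset L))
    (hUI : ∀ q ∈ U, ∀ a ∈ q.1, a ∈ I) (hU : ∀ Z, Good Z → Z ⊆ I → Cov U Z) :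
    ∃ V ⊆ U, V.Countable ∧ ∀ Z, Good Z → Z ⊆ I → Cov V Z := by
  classical
  let U' : Finset L → Finset L → (m : ℕ) → Set (Fin m → L) := fun F0 K m =>
    {F | (F0 ∪ Finset.univ.image F, K) ∈ U}
  have hU'I : ∀ F0 K m, ∀ F ∈ U' F0 K m, ∀ j, F j ∈ I := by
    intro F0 K m F hF j
    refine hUI _ hF (F j) ?_
    exact Finset.mem_union_right _ (Finset.mem_image_of_mem F (Finset.mem_univ j))
  have key : ∀ F0 K : Finset L, ∀ m : ℕ, 0 < m → ∃ W : Set L, W.Countable ∧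
      ((∀ F ∈ U' F0 K m, ∃ j, F j ∈ W) ∨
       (∃ (E : Set (Fin m → L)) (y : Fin m → Set L) (ξ : L) (V : Set (Finset L × Finset L)),
        PD E ∧ E ⊆ U' F0 K m ∧ (∀ F ∈ E, ∀ j, F j ∈ W) ∧
        (∀ F ∈ E, ∀ j, F j < ξ) ∧ (∀ j, Good (y j)) ∧ (∀ j, y j ⊆ Iio ξ) ∧
        (∀ H : Finset L, {F | F ∈ E ∧ ∀ j, p (F j) ∩ H = y j ∩ H}.Infinite) ∧
        V ⊆ U ∧ (∀ q ∈ V, (q.1 : Set L) ⊆ W ∧ (q.2 : Set L) ⊆ W) ∧
        ∀ Z, Good Z → Z ⊆ Iio ξ → Cov V Z)) := by
    intro F0 K m hm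
    obtain ⟨D, hDU, hdis, hmax⟩ := exists_maximal_PD hm (U' F0 K m)
    by_cases hDc : D.Countable
    · refine ⟨⋃ F ∈ D, Set.range F, hDc.biUnion fun F _ => Set.countable_range F, Or.inl ?_⟩
      intro F hF
      obtain ⟨G, hG, i, j, hij⟩ := hmax F hF
      refine ⟨i, ?_⟩
      simp only [Set.mem_iUnion]
      exact ⟨G, hG, j, hij.symm⟩
    · obtain ⟨E, y, ξ, hξI, hED, hEc, hEξ, hy, hyξ, hacc⟩ :=
        exists_acc S hI hm D (fun F hF => hU'I F0 K m F (hDU hF)) hdis hDc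
      obtain ⟨V, hVU, hVc, hV⟩ := ih ξ hξI U
        (fun Z hZ hZξ => hU Z hZ (hZξ.trans (hI ξ hξI)))
      refine ⟨(⋃ F ∈ E, Set.range F) ∪ ⋃ q ∈ V, ((q.1 : Set L) ∪ (q.2 : Set L)), ?_, Or.inr
        ⟨E, y, ξ, V, hdis.subset hED, hED.trans hDU, ?_, hEξ, hy, hyξ, hacc, hVU, ?_, hV⟩⟩
      · refine Set.Countable.union (hEc.biUnion fun F _ => Set.countable_range F) ?_
        exact hVc.biUnion fun q _ => (q.1.countable_toSet).union q.2.countable_toSet
      · intro F hF j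
        left
        simp only [Set.mem_iUnion]
        exact ⟨F, hF, j, rfl⟩
      · intro q hq
        constructor
        · intro a ha
          right
          simp only [Set.mem_iUnion]
          exact ⟨q, hq, Or.inl ha⟩
        · intro a ha
          right
          simp only [Set.mem_iUnion]
          exact ⟨q, hq, Or.inr ha⟩
  have key2 : ∀ F0 K : Finset L, ∀ m : ℕ, ∃ W : Set L, W.Countable ∧ (0 < m →
      ((∀ F ∈ U' F0 K m, ∃ j, F j ∈ W) ∨
       (∃ (E : Set (Fin m → L)) (y : Fin m → Set L) (ξ : L) (V : Set (Finset L × Finset L)),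
        PD E ∧ E ⊆ U' F0 K m ∧ (∀ F ∈ E, ∀ j, F j ∈ W) ∧
        (∀ F ∈ E, ∀ j, F j < ξ) ∧ (∀ j, Good (y j)) ∧ (∀ j, y j ⊆ Iio ξ) ∧
        (∀ H : Finset L, {F | F ∈ E ∧ ∀ j, p (F j) ∩ H = y j ∩ H}.Infinite) ∧
        V ⊆ U ∧ (∀ q ∈ V, (q.1 : Set L) ⊆ W ∧ (q.2 : Set L) ⊆ W) ∧
        ∀ Z, Good Z → Z ⊆ Iio ξ → Cov V Z))) := by
    intro F0 K m
    by_cases hm : 0 < m
    · obtain ⟨W, hW, h⟩ := key F0 K m hm
      exact ⟨W, hW, fun _ => h⟩
    · exact ⟨∅, Set.countable_empty, fun h => absurd h hm⟩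
  choose W hWc hW using key2
  let f : Finset L → Set L := fun H =>
    ⋃ F0 ∈ H.powerset, ⋃ K ∈ H.powerset, ⋃ m : ℕ, W F0 K m
  have hf : ∀ H, (f H).Countable := by
    intro H
    refine Set.Countable.biUnion (Finset.countable_toSet _) fun F0 _ => ?_
    refine Set.Countable.biUnion (Finset.countable_toSet _) fun K _ => ?_
    exact Set.countable_iUnion fun m => hWc F0 K m
  obtain ⟨M, hMc, hM⟩ := exists_closed f hf
  have hWM : ∀ F0 K : Finset L, (F0 : Set L) ⊆ M → (K : Set L) ⊆ M → ∀ m, W F0 K m ⊆ M := by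
    intro F0 K h0 hK m
    refine Set.Subset.trans ?_ (hM (F0 ∪ K) ?_)
    · intro x hx
      simp only [f, Set.mem_iUnion]
      exact ⟨F0, Finset.mem_powerset.mpr Finset.subset_union_left, K,
        Finset.mem_powerset.mpr Finset.subset_union_right, m, hx⟩
    · rw [Finset.coe_union]
      exact Set.union_subset h0 hK
  refine ⟨{q | q ∈ U ∧ (q.1 : Set L) ⊆ M ∧ (q.2 : Set L) ⊆ M}, fun q hq => hq.1, ?_, ?_⟩
  · have h1 := (countable_finsets hMc).prod (countable_finsets hMc)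
    refine h1.mono ?_
    rintro q ⟨-, h2, h3⟩
    exact ⟨h2, h3⟩
  · intro Z hZ hZI
    obtain ⟨⟨F, K⟩, hqU, hF, hK⟩ := hU (Z ∩ M) (S.mono hZ Set.inter_subset_left)
      (Set.inter_subset_left.trans hZI)
    have hKM : (K : Set L) ⊆ M := fun a ha => (hK a ha).2
    have hKZ : ∀ a ∈ K, a ∈ Z := fun a ha => (hK a ha).1
    let F0 : Finset L := F.filter (fun a => a ∈ M)
    let F1 : Finset L := F.filter (fun a => a ∉ M)
    have hF0M : (F0 : Set L) ⊆ M := fun a ha => (Finset.mem_filter.mp ha).2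
    have hF0Z : ∀ a ∈ F0, a ∉ Z := by
      intro a ha haZ
      exact hF a (Finset.mem_filter.mp ha).1 ⟨haZ, (Finset.mem_filter.mp ha).2⟩
    have hF01 : F0 ∪ F1 = F := Finset.filter_union_filter_not_eq _ F
    by_cases hm : 0 < F1.card
    · let g : Fin F1.card → L := fun i => (F1.equivFin.symm i : L)
      have hgim : Finset.univ.image g = F1 := by
        ext a
        simp only [Finset.mem_image, Finset.mem_univ, true_and, g]
        constructor
        · rintro ⟨i, rfl⟩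
          exact (F1.equivFin.symm i).2
        · intro ha
          exact ⟨F1.equivFin ⟨a, ha⟩, by simp⟩
      have hg : g ∈ U' F0 K F1.card := by
        change (F0 ∪ Finset.univ.image g, K) ∈ U
        rw [hgim, hF01]
        exact hqU
      rcases hW F0 K F1.card hm with h | ⟨E, y, ξ, V, hdis, hEU, hEW, hEξ, hy, hyξ, hacc, hVU, hVW, hV⟩
      · exfalso
        obtain ⟨j, hj⟩ := h g hg
        have h1 : g j ∈ M := hWM F0 K hF0M hKM _ hj
        exact (Finset.mem_filter.mp (F1.equivFin.symm j).2).2 h1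
      · by_cases hξ : ∃ b ∈ Z, ξ ≤ b
        · obtain ⟨F', hF'E, hF'Z⟩ := step3 S E hdis y hacc ξ hEξ hy hyξ Z hZ hξ
          refine ⟨(F0 ∪ Finset.univ.image F', K), ⟨hEU hF'E, ?_, hKM⟩, ?_, hKZ⟩
          · rw [Finset.coe_union]
            refine Set.union_subset hF0M ?_
            intro a ha
            obtain ⟨j, -, rfl⟩ := Finset.mem_image.mp (Finset.mem_coe.mp ha)
            exact hWM F0 K hF0M hKM _ (hEW F' hF'E j)
          · intro a ha
            rcases Finset.mem_union.mp ha with ha | ha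
            · exact hF0Z a ha
            · obtain ⟨j, -, rfl⟩ := Finset.mem_image.mp ha
              exact hF'Z j
        · push Not at hξ
          refine (hV Z hZ fun b hb => hξ b hb).mono ?_
          intro q hq
          exact ⟨hVU hq, (hVW q hq).1.trans (hWM F0 K hF0M hKM _),
            (hVW q hq).2.trans (hWM F0 K hF0M hKM _)⟩
    · have hF1 : F1 = ∅ := Finset.card_eq_zero.mp (Nat.eq_zero_of_not_pos hm)
      have hFF0 : F = F0 := by rw [← hF01, hF1, Finset.union_empty]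
      refine ⟨(F, K), ⟨hqU, ?_, hKM⟩, ?_, hKZ⟩
      · rw [hFF0]; exact hF0M
      · rw [hFF0]; exact hF0Z

theorem lind_step (S : Sys p Good) {I : Set L} (hI : ∀ a ∈ I, Iio a ⊆ I)
    (ih : ∀ ξ ∈ I, LindI Good (Iio ξ)) : LindI Good I := by
  classical
  intro U hU
  let φ : Finset L × Finset L → Finset L × Finset L := fun q => (q.1.filter (fun a => a ∈ I), q.2)
  have h1 : ∀ q ∈ φ '' U, ∀ a ∈ q.1, a ∈ I := by
    rintro _ ⟨q, -, rfl⟩ a ha
    exact (Finset.mem_filter.mp ha).2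
  have h2 : ∀ Z, Good Z → Z ⊆ I → Cov (φ '' U) Z := by
    intro Z hZ hZI
    obtain ⟨q, hq, hq1, hq2⟩ := hU Z hZ hZI
    exact ⟨φ q, ⟨q, hq, rfl⟩, fun a ha => hq1 a (Finset.mem_filter.mp ha).1, hq2⟩
  obtain ⟨V, hVU, hVc, hV⟩ := lind_step' S hI ih (φ '' U) h1 h2
  have h3 : ∀ v : V, ∃ q ∈ U, φ q = v := fun v => hVU v.2
  choose g hgU hg using h3
  haveI : Countable V := hVc.to_subtype
  refine ⟨Set.range g, ?_, Set.countable_range g, ?_⟩
  · rintro _ ⟨v, rfl⟩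
    exact hgU v
  · intro Z hZ hZI
    obtain ⟨q, hq, hq1, hq2⟩ := hV Z hZ hZI
    refine ⟨g ⟨q, hq⟩, ⟨⟨q, hq⟩, rfl⟩, ?_, ?_⟩
    · intro a ha haZ
      refine hq1 a ?_ haZ
      have h4 := hg ⟨q, hq⟩
      have h5 : a ∈ (φ (g ⟨q, hq⟩)).1 := Finset.mem_filter.mpr ⟨ha, hZI haZ⟩
      rw [h4] at h5
      exact h5
    · intro a ha
      have h4 := hg ⟨q, hq⟩
      have h5 : a ∈ (φ (g ⟨q, hq⟩)).2 := ha
      rw [h4] at h5
      exact hq2 a h5

theorem lind_Iio [WellFoundedLT L] (S : Sys p Good) (ξ : L) : LindI Good (Iio ξ) := by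
  induction ξ using WellFoundedLT.induction with
  | ind ξ ih => exact lind_step S (fun a ha b hb => lt_trans hb ha) fun η hη => ih η hη

/-- The whole space is Lindelöf. -/
theorem lind_univ [WellFoundedLT L] (S : Sys p Good) : LindI Good Set.univ :=
  lind_step S (fun a _ => Set.subset_univ _) fun η _ => lind_Iio S η

end Pool.Agent.DZ96
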